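import Pool.Agent.helper10.OM.Spec

set_option autoImplicit false

namespace Pool.Agent.OM

open Finset Real Pool.Agent.AT Pool.Agent.helper85.FC

theorem UFT_conj (t : ℝ) : ee (-t) = (starRingEnd ℂ) (ee t) := by
  unfold ee
  rw [← Complex.exp_conj]
  congr 1
  simp only [map_mul, Complex.conj_I, Complex.conj_ofReal, map_ofNat]
  push_cast
  ring

theorem UFT_norm (D : ℕ) (θ : ℝ) : ‖∑ d ∈ range D, ee (-(θ * d))‖ = ‖∑ d ∈ range D, ee (θ * d)‖ := by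
  have h : ∑ d ∈ range D, ee (-(θ * d)) = (starRingEnd ℂ) (∑ d ∈ range D, ee (θ * d)) := by
    rw [map_sum]
    exact Finset.sum_congr rfl fun d _ => UFT_conj _
  rw [h, Complex.norm_conj]

theorem UFT_inj (R Y Q : ℕ) (h : Y + 2 * R ≤ Q) : ∀ x ∈ XX R Y, ∀ x' ∈ XX R Y, (Q : ℤ) ∣ x - x' → x = x' := by
  intro x hx x' hx' hd
  unfold XX at hx hx'
  rw [Finset.mem_Ico] at hx hx'
  have hlt : |x - x'| < Q := by
    rw [abs_lt]
    constructor <;> omega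
  have := Int.eq_zero_of_abs_lt_dvd hd hlt
  omega

theorem UFT_cs (L m : ℕ) (X : Finset ℤ) (φ ψ : ℕ → ℤ → ℝ) (α β : ℝ) :
    ‖∑ i ∈ Ico m L, ft X (φ i) α * ft X (ψ (i - m)) β‖ ^ 2 ≤ Ph L X φ α * Ph L X ψ β := by
  have h1 : ‖∑ i ∈ Ico m L, ft X (φ i) α * ft X (ψ (i - m)) β‖ ≤
      ∑ i ∈ Ico m L, ‖ft X (φ i) α‖ * ‖ft X (ψ (i - m)) β‖ := by
    refine (norm_sum_le _ _).trans (le_of_eq ?_)
    exact Finset.sum_congr rfl fun i _ => norm_mul _ _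
  have h2 : (∑ i ∈ Ico m L, ‖ft X (φ i) α‖ * ‖ft X (ψ (i - m)) β‖) ^ 2 ≤
      (∑ i ∈ Ico m L, ‖ft X (φ i) α‖ ^ 2) * (∑ i ∈ Ico m L, ‖ft X (ψ (i - m)) β‖ ^ 2) :=
    Finset.sum_mul_sq_le_sq_mul_sq _ _ _
  have h3 : ∑ i ∈ Ico m L, ‖ft X (φ i) α‖ ^ 2 ≤ Ph L X φ α := by
    unfold Ph
    refine Finset.sum_le_sum_of_subset_of_nonneg ?_ (fun i _ _ => by positivity)
    intro i hi
    rw [Finset.mem_Ico] at hi
    exact Finset.mem_range.2 hi.2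
  have h4 : ∑ i ∈ Ico m L, ‖ft X (ψ (i - m)) β‖ ^ 2 ≤ Ph L X ψ β := by
    unfold Ph
    rw [Finset.sum_Ico_eq_sum_range]
    have : ∀ i, m + i - m = i := fun i => by omega
    simp only [this]
    refine Finset.sum_le_sum_of_subset_of_nonneg ?_ (fun i _ _ => by positivity)
    intro i hi
    rw [Finset.mem_range] at hi ⊢
    omega
  calc _ ≤ (∑ i ∈ Ico m L, ‖ft X (φ i) α‖ * ‖ft X (ψ (i - m)) β‖) ^ 2 :=
        pow_le_pow_left₀ (norm_nonneg _) h1 2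
    _ ≤ _ := h2
    _ ≤ _ := mul_le_mul h3 h4 (Finset.sum_nonneg fun i _ => by positivity)
        (Finset.sum_nonneg fun i _ => by positivity)

theorem UFT_hat (L m : ℕ) (X : Finset ℤ) (φ ψ : ℕ → ℤ → ℝ) (α β : ℝ) :
    ∑ x ∈ X, ∑ y ∈ X, ((gm L φ ψ m x y : ℝ) : ℂ) * (ee (α * x) * ee (β * y)) =
      ∑ i ∈ Ico m L, ft X (φ i) α * ft X (ψ (i - m)) β := by
  unfold gm ft
  simp only [Complex.ofReal_sum, Complex.ofReal_mul, Finset.sum_mul]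
  rw [Finset.sum_comm]
  have : ∀ y ∈ X, ∑ x ∈ X, ∑ i ∈ Ico m L, (φ i x : ℂ) * (ψ (i - m) y : ℂ) * (ee (α * x) * ee (β * y)) =
      ∑ i ∈ Ico m L, ∑ x ∈ X, (φ i x : ℂ) * (ψ (i - m) y : ℂ) * (ee (α * x) * ee (β * y)) := fun y _ =>
    Finset.sum_comm
  rw [Finset.sum_congr rfl this, Finset.sum_comm]
  refine Finset.sum_congr rfl fun i _ => ?_
  rw [Finset.sum_comm]
  refine Finset.sum_congr rfl fun x _ => ?_
  rw [Finset.mul_sum]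
  refine Finset.sum_congr rfl fun y _ => ?_
  ring

theorem UFT_shift (h1 : EEB_stmt) (h3 : SHF_stmt) (L R₀ R Y m A B : ℕ) (hA : R₀ + A ≤ R) (hB : R₀ + B ≤ R)
    (φ ψ : ℕ → ℤ → ℝ) (hφ : Sp R₀ Y φ) (hψ : Sp R₀ Y ψ) (α β : ℝ) :
    ∑ x ∈ XX R Y, ∑ y ∈ XX R Y, ((gm L φ ψ m (x + (A : ℤ)) (y + (B : ℤ)) : ℝ) : ℂ) * (ee (α * x) * ee (β * y)) =
      ee (-(A * α + B * β)) * ∑ x ∈ XX R Y, ∑ y ∈ XX R Y, ((gm L φ ψ m x y : ℝ) : ℂ) * (ee (α * x) * ee (β * y)) := by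
  obtain ⟨-, hadd, -, -, -⟩ := h1
  set H : ℤ → ℤ → ℂ := fun x y => ((gm L φ ψ m x y : ℝ) : ℂ) * (ee (α * x) * ee (β * y)) with hH
  have e1 : ∀ x y : ℤ, ((gm L φ ψ m (x + (A : ℤ)) (y + (B : ℤ)) : ℝ) : ℂ) * (ee (α * x) * ee (β * y)) =
      ee (-(A * α + B * β)) * H (x + A) (y + B) := by
    intro x y
    have : ee (α * x) * ee (β * y) = ee (-(A * α + B * β)) * (ee (α * ((x + (A : ℤ) : ℤ) : ℝ)) *
        ee (β * ((y + (B : ℤ) : ℤ) : ℝ))) := by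
      rw [← hadd, ← hadd, ← hadd]
      congr 1
      push_cast
      ring
    rw [this, hH]
    ring
  simp only [e1, ← Finset.mul_sum]
  congr 1
  have s1 : ∑ x ∈ XX R Y, (fun x => ∑ y ∈ XX R Y, H x (y + B)) (x + (A : ℤ)) =
      ∑ x ∈ XX R Y, (fun x => ∑ y ∈ XX R Y, H x (y + B)) x := by
    refine @h3 ℂ _ R₀ R Y (A : ℤ) ?_ (fun x => ∑ y ∈ XX R Y, H x (y + B)) ?_
    · rw [abs_of_nonneg (by positivity)]
      exact_mod_cast hA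
    · intro x hx
      refine Finset.sum_eq_zero fun y _ => ?_
      simp only [hH, gm]
      rw [Finset.sum_eq_zero]
      · simp
      · intro i _
        rw [hφ i x hx, zero_mul]
  have s2 : ∀ x, ∑ y ∈ XX R Y, (fun y => H x y) (y + (B : ℤ)) = ∑ y ∈ XX R Y, (fun y => H x y) y := by
    intro x
    refine @h3 ℂ _ R₀ R Y (B : ℤ) ?_ (fun y => H x y) ?_
    · rw [abs_of_nonneg (by positivity)]
      exact_mod_cast hB
    · intro y hy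
      simp only [hH, gm]
      rw [Finset.sum_eq_zero]
      · simp
      · intro i _
        rw [hψ _ y hy, mul_zero]
  calc _ = ∑ x ∈ XX R Y, (fun x => ∑ y ∈ XX R Y, H x (y + B)) (x + (A : ℤ)) := rfl
    _ = ∑ x ∈ XX R Y, (fun x => ∑ y ∈ XX R Y, H x (y + B)) x := s1
    _ = _ := Finset.sum_congr rfl fun x _ => s2 x

theorem UFT (h1 : EEB_stmt) (h2 : PA2_stmt) (h3 : SHF_stmt) : UFT_stmt := by
  intro a b L D R₀ R Y Q m hD hQ hYQ hRa hRb φ ψ hφ hψ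
  set g : ℤ → ℤ → ℝ := fun x y => (∑ d ∈ range D, gm L φ ψ m (x + (a : ℤ) ^ m * d) (y + (b : ℤ) ^ m * d)) / D with hg
  have hP := h2 Q hQ (XX R Y) (UFT_inj R Y Q hYQ) (fun x y => ((g x y : ℝ) : ℂ))
  have hn : ∀ x y, ‖((g x y : ℝ) : ℂ)‖ ^ 2 = g x y ^ 2 := by
    intro x y
    rw [Complex.norm_real, Real.norm_eq_abs, sq_abs]
  simp only [hn] at hP
  rw [← hP]
  refine Finset.sum_le_sum fun k _ => Finset.sum_le_sum fun l _ => ?_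
  set α : ℝ := (k : ℝ) / Q
  set β : ℝ := (l : ℝ) / Q
  have hG : ∑ x ∈ XX R Y, ∑ y ∈ XX R Y, ((g x y : ℝ) : ℂ) * (ee (α * x) * ee (β * y)) =
      ((∑ d ∈ range D, ee (-(((a : ℝ) ^ m * α + (b : ℝ) ^ m * β) * d))) / D) *
        ∑ i ∈ Ico m L, ft (XX R Y) (φ i) α * ft (XX R Y) (ψ (i - m)) β := by
    rw [← UFT_hat]
    have e1 : ∀ x y : ℤ, ((g x y : ℝ) : ℂ) * (ee (α * x) * ee (β * y)) =
        ∑ d ∈ range D, (((gm L φ ψ m (x + ((a ^ m * d : ℕ) : ℤ)) (y + ((b ^ m * d : ℕ) : ℤ)) : ℝ) : ℂ) *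
          (ee (α * x) * ee (β * y))) / D := by
      intro x y
      rw [hg]
      push_cast
      rw [Finset.sum_div, Finset.sum_mul]
      refine Finset.sum_congr rfl fun d _ => ?_
      ring
    simp only [e1]
    have e2 : ∀ x ∈ XX R Y, ∑ y ∈ XX R Y, ∑ d ∈ range D, (((gm L φ ψ m (x + ((a ^ m * d : ℕ) : ℤ)) (y + ((b ^ m * d : ℕ) : ℤ)) : ℝ) : ℂ) *
          (ee (α * x) * ee (β * y))) / D = ∑ d ∈ range D, ∑ y ∈ XX R Y, (((gm L φ ψ m (x + ((a ^ m * d : ℕ) : ℤ)) (y + ((b ^ m * d : ℕ) : ℤ)) : ℝ) : ℂ) *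
          (ee (α * x) * ee (β * y))) / D := fun x _ => Finset.sum_comm
    rw [Finset.sum_congr rfl e2, Finset.sum_comm, Finset.sum_div, Finset.sum_mul]
    refine Finset.sum_congr rfl fun d hd => ?_
    rw [Finset.mem_range] at hd
    have hs := UFT_shift h1 h3 L R₀ R Y m (a ^ m * d) (b ^ m * d)
      (le_trans (Nat.add_le_add_left (Nat.mul_le_mul_left _ hd.le) _) hRa)
      (le_trans (Nat.add_le_add_left (Nat.mul_le_mul_left _ hd.le) _) hRb) φ ψ hφ hψ α β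
    simp only [← Finset.sum_div]
    rw [hs]
    have e3 : (-(((a ^ m * d : ℕ) : ℝ) * α + ((b ^ m * d : ℕ) : ℝ) * β)) =
        -(((a : ℝ) ^ m * α + (b : ℝ) ^ m * β) * d) := by
      push_cast
      ring
    rw [e3]
    ring
  rw [hG, norm_mul, mul_pow, norm_div, Complex.norm_natCast]
  have e4 := UFT_norm D ((a : ℝ) ^ m * α + (b : ℝ) ^ m * β)
  rw [e4]
  have e5 : (‖∑ d ∈ range D, ee (((a : ℝ) ^ m * α + (b : ℝ) ^ m * β) * d)‖ / D) ^ 2 =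
      FD D ((a : ℝ) ^ m * α + (b : ℝ) ^ m * β) := rfl
  rw [e5, mul_comm]
  refine mul_le_mul_of_nonneg_right (UFT_cs L m (XX R Y) φ ψ α β) ?_
  unfold FD
  positivity

end Pool.Agent.OM
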